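import Pool.Agent.Helper63.Sey3.Goals

/-!
# Packet SEY3-MISS

Good vertices see few colours.
-/

namespace Pool.Agent.Helper95.Sey3

open Pool.Agent.Helper63.Sey3
open Pool.Agent.Helper63.Sey3.Sy

theorem goalMISS : GoalMISS := by
  classical
  intro V _ P κ ω v i hG
  have h1 : ∀ a : {a // P.used (P.st ω i) v a}, ∃ u, P.Own v u ∧ P.st ω i u = some a.1 :=
    fun a => a.2
  choose f hf1 hf2 using h1
  have h2 : ∀ a : {a : Fin P.q // ∃ u u', u ≠ u' ∧ P.Own v u ∧ P.Own v u' ∧
      P.c0 ω u = some a ∧ P.c0 ω u' = some a}, ∃ u, P.Own v u ∧ P.st ω i u = some a.1 ∧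
      ∀ h : P.used (P.st ω i) v a.1, u ≠ f ⟨a.1, h⟩ := by
    rintro ⟨a, u, u', hne, hu, hu', hc, hc'⟩
    have hs : P.st ω i u = some a := P.st_eq_some ω (Nat.zero_le i) hc
    have hs' : P.st ω i u' = some a := P.st_eq_some ω (Nat.zero_le i) hc'
    have hused : P.used (P.st ω i) v a := ⟨u, hu, hs⟩
    by_cases h : u = f ⟨a, hused⟩
    · exact ⟨u', hu', hs', fun _ => by rw [← h]; exact hne.symm⟩
    · exact ⟨u, hu, hs, fun _ => h⟩
  choose g hg1 hg2 hg3 using h2
  let F : {a // P.used (P.st ω i) v a} ⊕ {a : Fin P.q // ∃ u u', u ≠ u' ∧ P.Own v u ∧ P.Own v u' ∧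
      P.c0 ω u = some a ∧ P.c0 ω u' = some a} → {u // P.Own v u} :=
    Sum.elim (fun a => ⟨f a, hf1 a⟩) (fun a => ⟨g a, hg1 a⟩)
  have hF : Function.Injective F := by
    rintro (a | a) (b | b) hab
    · have h : f a = f b := congrArg Subtype.val hab
      have h3 := hf2 a
      rw [h, hf2 b] at h3
      rw [Subtype.ext (Option.some.inj h3)]
    · exfalso
      have h : f a = g b := congrArg Subtype.val hab
      have h3 := hf2 a
      rw [h, hg2 b] at h3
      have h4 : b.1 = a.1 := Option.some.inj h3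
      have h5 : P.used (P.st ω i) v b.1 := by rw [h4]; exact a.2
      apply hg3 b h5
      rw [← h]
      exact congrArg f (Subtype.ext h4.symm)
    · exfalso
      have h : g a = f b := congrArg Subtype.val hab
      have h3 := hf2 b
      rw [← h, hg2 a] at h3
      have h4 : a.1 = b.1 := Option.some.inj h3
      have h5 : P.used (P.st ω i) v a.1 := by rw [h4]; exact b.2
      apply hg3 a h5
      rw [h]
      exact congrArg f (Subtype.ext h4.symm)
    · have h : g a = g b := congrArg Subtype.val hab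
      have h3 := hg2 a
      rw [h, hg2 b] at h3
      rw [Subtype.ext (Option.some.inj h3)]
  have h3 := Nat.card_le_card_of_injective F hF
  rw [Nat.card_sum] at h3
  unfold Gd dg rp at hG
  omega

end Pool.Agent.Helper95.Sey3
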